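import Pool.Agent.H.MP_c12e41_al.h48.Gen

set_option autoImplicit false

namespace Pool.Agent.Results.MP_c12e41_al.Lamplighter

open Pool.Agent.H.MP_c12e41_al

/-- The left annihilator `{x : x a = 0}`, a left ideal. -/
def leftAnnihilator {A : Type} [Ring A] (a : A) : Ideal A where
  carrier := {x | x * a = 0}
  add_mem' := fun {x y} hx hy => by
    have hx' : x * a = 0 := hx
    have hy' : y * a = 0 := hy
    show (x + y) * a = 0
    rw [add_mul, hx', hy', add_zero]
  zero_mem' := zero_mul a
  smul_mem' := fun c x hx => by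
    have hx' : x * a = 0 := hx
    show c * x * a = 0
    rw [mul_assoc, hx', mul_zero]

/-- The idempotent `e = (1 + a) / 2` of the group algebra of the lamplighter group, `a` the lamp
at `0`. -/
noncomputable def idem (K : Type) [Field K] : MonoidAlgebra K Lamp :=
  (1 / 2 : K) • (1 + MonoidAlgebra.of K Lamp (aa 0))

/-- The element `t e + e t⁻¹`, `t` the shift. -/
noncomputable def element (K : Type) [Field K] : MonoidAlgebra K Lamp :=
  MonoidAlgebra.of K Lamp (tt 1) * idem K + idem K * MonoidAlgebra.of K Lamp (tt (-1))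

open Pool.Agent.H.MP_c12e41_al.h48 in
theorem not_fg (K : Type) [Field K] [NeZero (2 : K)] :
    ¬ (leftAnnihilator (alpha K)).FG := by
  rintro ⟨s, hs⟩
  classical
  have hmem : ∀ x, x ∈ Submodule.span (MonoidAlgebra K Lamp) (s : Set (MonoidAlgebra K Lamp)) ↔
      x * alpha K = 0 := by
    intro x
    have h1 : x ∈ leftAnnihilator (alpha K) ↔ x * alpha K = 0 := Iff.rfl
    rw [← h1, ← hs]
  obtain ⟨J, hJ1, hJ⟩ := exists_far (s.biUnion fun b => b.coeff.support)
  have hkill : ∀ b ∈ s, rho K (-1) ((2 * (2 * J) : ℕ) : ℤ) b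
      (Pi.single ((2 * J : ℕ) : ℤ) 1) = 0 := by
    intro b hb
    refine far _ _ _ b (fun g hg => hJ g (Finset.mem_biUnion.2 ⟨b, hb, hg⟩)) ?_
    apply pr_eq_zero
    exact (hmem b).1 (Submodule.subset_span hb)
  have hg := (hmem (gam K (2 * J))).2 (gam_alpha (2 * J) (by omega))
  have hzero : rho K (-1) ((2 * (2 * J) : ℕ) : ℤ) (gam K (2 * J))
      (Pi.single ((2 * J : ℕ) : ℤ) 1) = 0 := by
    have : ∀ x ∈ Submodule.span (MonoidAlgebra K Lamp) (s : Set (MonoidAlgebra K Lamp)),
        rho K (-1) ((2 * (2 * J) : ℕ) : ℤ) x (Pi.single ((2 * J : ℕ) : ℤ) 1) = 0 := by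
      intro x hx
      induction hx using Submodule.span_induction with
      | mem x h => exact hkill x h
      | zero => simp
      | add x y _ _ hx hy => rw [map_add, LinearMap.add_apply, hx, hy, add_zero]
      | smul a x _ hx => rw [smul_eq_mul, map_mul, Module.End.mul_apply, hx, map_zero]
    exact this _ hg
  have h0 := congrFun hzero 0
  rw [rho_gam] at h0
  have h1 : ∑ j ∈ Finset.range (2 * J + 1),
      (-1 : K) ^ j * (Pi.single ((2 * J : ℕ) : ℤ) (1 : K) : ℤ → K) (2 * (j : ℤ)) = (-1) ^ J := by
    rw [Finset.sum_eq_single J]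
    · simp
    · intro j _ hj
      rw [Pi.single_eq_of_ne (by push_cast; omega)]; simp
    · intro h; exact absurd (Finset.mem_range.2 (by omega)) h
  rw [h1] at h0
  simp at h0

/-- **The left annihilator of `t e + e t⁻¹` in the group algebra of the lamplighter group is not
finitely generated.** -/
theorem result (K : Type) [Field K] (h2 : (2 : K) ≠ 0) : ¬ (leftAnnihilator (element K)).FG := by
  have : NeZero (2 : K) := ⟨h2⟩
  exact not_fg K

end Pool.Agent.Results.MP_c12e41_al.Lamplighter
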